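import Mathlib
import Pool.Agent.H632R3.ConvexLSE

open Finset Filter Topology MeasureTheory ProbabilityTheory
open scoped ENNReal NNReal

namespace Pool.Agent.Results.MP_856808_pr.BoundaryTight

set_option linter.unusedSectionVars false

noncomputable section

/-- The design points `x_i`, indexed from `0`: `i / (n-1)`. -/
def design (n : ℕ) (i : Fin n) : ℝ := (i : ℝ) / ((n : ℝ) - 1)

/-- The cone `K_n`: the slopes between consecutive design points are nondecreasing. -/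
def K (n : ℕ) : Set (Fin n → ℝ) :=
  {θ | ∀ (i : ℕ) (h : i + 2 < n),
    (θ ⟨i + 1, by omega⟩ - θ ⟨i, by omega⟩) /
        (design n ⟨i + 1, by omega⟩ - design n ⟨i, by omega⟩) ≤
      (θ ⟨i + 2, h⟩ - θ ⟨i + 1, by omega⟩) /
        (design n ⟨i + 2, h⟩ - design n ⟨i + 1, by omega⟩)}

/-- `θ` minimises the sum of squares `∑ (Y_i - θ_i)²` over `K_n`. -/
structure IsLSE (n : ℕ) (Y θ : Fin n → ℝ) : Prop where
  mem : θ ∈ K n
  opt : ∀ θ' ∈ K n, ∑ i, (Y i - θ i) ^ 2 ≤ ∑ i, (Y i - θ' i) ^ 2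

/-- The convex least squares estimator. -/
def lse (n : ℕ) (Y : Fin n → ℝ) : Fin n → ℝ := Classical.epsilon (IsLSE n Y)

/-- Extension by zero to all indices. -/
def ext (n : ℕ) (θ : Fin n → ℝ) (i : ℕ) : ℝ := if h : i < n then θ ⟨i, h⟩ else 0

/-- The piecewise-linear interpolant of the points `(x_i, θ_i)` on `[0,1]`. -/
def interp (n : ℕ) (θ : Fin n → ℝ) (x : ℝ) : ℝ :=
  ext n θ ⌊x * ((n : ℝ) - 1)⌋₊ + (x * ((n : ℝ) - 1) - (⌊x * ((n : ℝ) - 1)⌋₊ : ℝ)) *
    (ext n θ (⌊x * ((n : ℝ) - 1)⌋₊ + 1) - ext n θ ⌊x * ((n : ℝ) - 1)⌋₊)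

open Pool.Agent.H632R3.ConvexLSE

theorem mem_K {n : ℕ} (hn : 2 ≤ n) (θ : Fin n → ℝ) : θ ∈ K n ↔ DC n (ext n θ) := by
  have hn' : (0 : ℝ) < (n : ℝ) - 1 := by
    have : (2 : ℝ) ≤ n := by exact_mod_cast hn
    linarith
  unfold K DC
  simp only [Set.mem_ofPred_eq]
  refine forall_congr' fun i => forall_congr' fun h => ?_
  have h1 : design n ⟨i + 1, by omega⟩ - design n ⟨i, by omega⟩ = 1 / ((n : ℝ) - 1) := by
    unfold design; push_cast; ring
  have h2 : design n ⟨i + 2, h⟩ - design n ⟨i + 1, by omega⟩ = 1 / ((n : ℝ) - 1) := by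
    unfold design; push_cast; ring
  rw [h1, h2, div_le_div_iff_of_pos_right (by positivity)]
  unfold ext
  rw [dif_pos (by omega), dif_pos (by omega), dif_pos h]
  constructor <;> intro h3 <;> linarith

theorem sum_ext {n : ℕ} (g : ℕ → ℝ) : ∑ i ∈ range n, g i = ∑ i : Fin n, g i :=
  (Fin.sum_univ_eq_sum_range g n).symm

theorem ext_val {n : ℕ} (θ : Fin n → ℝ) (i : Fin n) : ext n θ i = θ i := by
  unfold ext; rw [dif_pos i.2]

theorem IsLSE.proj {n : ℕ} (hn : 2 ≤ n) {Y θ : Fin n → ℝ} (h : IsLSE n Y θ) (y : ℕ → ℝ)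
    (hy : ∀ i : Fin n, y i = Y i) : Proj n y (ext n θ) where
  dc := (mem_K hn θ).mp h.mem
  opt := by
    intro θ' hθ'
    have h1 : ext n (fun i : Fin n => θ' i) = fun i => if i < n then θ' i else 0 := by
      funext i; unfold ext; split_ifs <;> rfl
    have h2 : (fun i : Fin n => θ' i) ∈ K n := by
      rw [mem_K hn, h1]
      intro i hi
      simp only
      rw [if_pos (by omega), if_pos (by omega), if_pos hi]
      exact hθ' i hi
    have h3 := h.opt _ h2
    rw [sum_ext, sum_ext]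
    simp_rw [hy, ext_val]
    exact h3

theorem K_closed {n : ℕ} (hn : 2 ≤ n) : IsClosed (K n) := by
  have : K n = ⋂ (i : ℕ) (_ : i + 2 < n), {θ : Fin n → ℝ |
      2 * ext n θ (i + 1) ≤ ext n θ i + ext n θ (i + 2)} := by
    ext θ
    rw [mem_K hn]
    simp only [Set.mem_iInter, Set.mem_ofPred_eq]
    rfl
  rw [this]
  refine isClosed_iInter fun i => isClosed_iInter fun h => ?_
  have hc : ∀ j, Continuous fun θ : Fin n → ℝ => ext n θ j := by
    intro j
    unfold ext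
    split_ifs
    · exact continuous_apply _
    · exact continuous_const
  exact isClosed_le (continuous_const.mul (hc _)) ((hc _).add (hc _))

theorem exists_lse {n : ℕ} (hn : 2 ≤ n) (Y : Fin n → ℝ) : ∃ θ, IsLSE n Y θ := by
  have h0 : (0 : Fin n → ℝ) ∈ K n := by
    rw [mem_K hn]
    intro i hi
    unfold ext
    simp
  have hcont : Continuous fun θ : Fin n → ℝ => ∑ i, (Y i - θ i) ^ 2 := by fun_prop
  set R := ∑ i, Y i ^ 2 with hR
  have hcomp : IsCompact (K n ∩ Metric.closedBall Y (R + 1)) :=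
    (isCompact_closedBall Y (R + 1)).inter_left (K_closed hn)
  have hR0 : 0 ≤ R := Finset.sum_nonneg fun i _ => sq_nonneg _
  have hsmall : ∀ θ : Fin n → ℝ, ∑ i, (Y i - θ i) ^ 2 ≤ R → θ ∈ Metric.closedBall Y (R + 1) := by
    intro θ hθ
    rw [Metric.mem_closedBall, dist_pi_le_iff (by linarith)]
    intro i
    have h1 : (Y i - θ i) ^ 2 ≤ R :=
      (Finset.single_le_sum (f := fun i => (Y i - θ i) ^ 2) (fun j _ => sq_nonneg _)
        (Finset.mem_univ i)).trans hθ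
    rw [Real.dist_eq, abs_sub_comm]
    have h2 : |Y i - θ i| ^ 2 ≤ (R + 1) ^ 2 := by
      rw [sq_abs]; nlinarith
    exact abs_le_of_sq_le_sq (by rwa [sq_abs] at h2) (by linarith)
  have hmem0 : (0 : Fin n → ℝ) ∈ K n ∩ Metric.closedBall Y (R + 1) :=
    ⟨h0, hsmall 0 (by simp [hR])⟩
  obtain ⟨θ, hθ, hmin⟩ := hcomp.exists_isMinOn ⟨0, hmem0⟩ hcont.continuousOn
  refine ⟨θ, hθ.1, fun θ' hθ' => ?_⟩
  by_cases hc : ∑ i, (Y i - θ' i) ^ 2 ≤ R
  · exact hmin ⟨hθ', hsmall θ' hc⟩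
  · have h1 : ∑ i, (Y i - θ i) ^ 2 ≤ ∑ i, (Y i - (0 : Fin n → ℝ) i) ^ 2 := hmin hmem0
    simp only [Pi.zero_apply, sub_zero] at h1
    linarith

theorem lse_unique {n : ℕ} (hn : 2 ≤ n) (Y : Fin n → ℝ) {θ θ' : Fin n → ℝ} (h : IsLSE n Y θ)
    (h' : IsLSE n Y θ') : θ = θ' := by
  have hm : (fun i => (θ i + θ' i) / 2) ∈ K n := by
    rw [mem_K hn]
    have h1 := (mem_K hn θ).mp h.mem
    have h2 := (mem_K hn θ').mp h'.mem
    intro i hi
    have h3 := h1 i hi
    have h4 := h2 i hi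
    unfold ext at h3 h4 ⊢
    rw [dif_pos (by omega), dif_pos (by omega), dif_pos hi] at h3 h4 ⊢
    linarith
  have h1 := h.opt _ hm
  have h2 := h'.opt _ h.mem
  have h3 := h.opt _ h'.mem
  have h4 : ∑ i, (Y i - (θ i + θ' i) / 2) ^ 2 = (1 / 2) * ∑ i, (Y i - θ i) ^ 2 +
      (1 / 2) * ∑ i, (Y i - θ' i) ^ 2 - (1 / 4) * ∑ i, (θ i - θ' i) ^ 2 := by
    rw [Finset.mul_sum, Finset.mul_sum, Finset.mul_sum, ← Finset.sum_add_distrib,
      ← Finset.sum_sub_distrib]
    exact Finset.sum_congr rfl fun i _ => by ring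
  have h5 : ∑ i, (θ i - θ' i) ^ 2 ≤ 0 := by linarith
  have h6 : ∑ i, (θ i - θ' i) ^ 2 = 0 :=
    le_antisymm h5 (Finset.sum_nonneg fun i _ => sq_nonneg _)
  rw [Finset.sum_eq_zero_iff_of_nonneg fun i _ => sq_nonneg _] at h6
  funext i
  have := h6 i (Finset.mem_univ i)
  have := pow_eq_zero_iff (two_ne_zero) |>.mp this
  linarith

theorem lse_spec {n : ℕ} (hn : 2 ≤ n) (Y : Fin n → ℝ) : IsLSE n Y (lse n Y) :=
  Classical.epsilon_spec (exists_lse hn Y)

theorem interp_tendsto {n : ℕ} (hn : 2 ≤ n) (θ : Fin n → ℝ) :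
    Tendsto (interp n θ) (𝓝[>] 0) (𝓝 (θ ⟨0, by omega⟩)) := by
  have hn' : (0 : ℝ) < (n : ℝ) - 1 := by
    have : (2 : ℝ) ≤ n := by exact_mod_cast hn
    linarith
  have h1 : Tendsto (fun x : ℝ => ext n θ 0 + x * ((n : ℝ) - 1) * (ext n θ 1 - ext n θ 0))
      (𝓝[>] 0) (𝓝 (θ ⟨0, by omega⟩)) := by
    have h2 : Continuous fun x : ℝ => ext n θ 0 + x * ((n : ℝ) - 1) * (ext n θ 1 - ext n θ 0) := by
      fun_prop
    have h3 := (h2.tendsto 0).mono_left (nhdsWithin_le_nhds (s := Set.Ioi (0 : ℝ)))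
    have h4 : ext n θ 0 = θ ⟨0, by omega⟩ := by unfold ext; rw [dif_pos]
    simpa [h4] using h3
  refine h1.congr' ?_
  have h2 : ∀ᶠ x : ℝ in 𝓝[>] 0, x < 1 / ((n : ℝ) - 1) :=
    nhdsWithin_le_nhds (eventually_lt_nhds (by positivity))
  filter_upwards [h2, self_mem_nhdsWithin] with x hx hx0
  have hx0' : (0 : ℝ) < x := hx0
  have h3 : ⌊x * ((n : ℝ) - 1)⌋₊ = 0 := by
    rw [Nat.floor_eq_zero]
    rwa [lt_div_iff₀ hn'] at hx
  unfold interp
  rw [h3]
  simp

/-- Deterministic upper bound. -/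
theorem det {n : ℕ} (hn : 2 ≤ n) {f : ℝ → ℝ} (hf : ConvexOn ℝ (Set.Icc 0 1) f)
    (e : Fin n → ℝ) :
    e ⟨0, by omega⟩ ≤ lse n (fun i => f (design n i) + e i) ⟨0, by omega⟩ - f 0 ∧
    ∃ m, 1 ≤ m ∧ m < n ∧
      (lse n (fun i => f (design n i) + e i) ⟨0, by omega⟩ - f 0) * ((m + 1) * (m + 2) / 6) ≤
        ∑ i : Fin n, (if (i : ℕ) ≤ m then w m i else 0) * e i := by
  have hn' : (0 : ℝ) < (n : ℝ) - 1 := by
    have : (2 : ℝ) ≤ n := by exact_mod_cast hn
    linarith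
  set F : ℕ → ℝ := fun i => f ((i : ℝ) / ((n : ℝ) - 1)) with hF
  have hF0 : F 0 = f 0 := by simp [hF]
  have hP := (lse_spec hn (fun i => f (design n i) + e i)).proj hn
    (fun i => F i + ext n e i) (fun i => by simp only [hF, ext_val]; rfl)
  have he0 : ext n (lse n (fun i => f (design n i) + e i)) 0 =
      lse n (fun i => f (design n i) + e i) ⟨0, by omega⟩ := by
    unfold ext; rw [dif_pos]
  constructor
  · have h1 := hP.left (by omega)
    simp only [he0, hF0] at h1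
    have h2 : ext n e 0 = e ⟨0, by omega⟩ := by unfold ext; rw [dif_pos]
    rw [h2] at h1
    linarith
  · obtain ⟨m, hm1, hmn, hm⟩ := hP.right hn (F := F) (e := ext n e) (by
      intro i j hij hj
      rcases Nat.eq_zero_or_pos j with rfl | hj0
      · have : i = 0 := by omega
        subst this
        simp
      · have hjr : (0 : ℝ) < j := by exact_mod_cast hj0
        have hijr : (i : ℝ) ≤ j := by exact_mod_cast hij
        have hxj : (j : ℝ) / ((n : ℝ) - 1) ∈ Set.Icc (0 : ℝ) 1 := by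
          constructor
          · positivity
          · rw [div_le_one hn']
            have : j + 1 ≤ n := hj
            have : (j : ℝ) + 1 ≤ n := by exact_mod_cast this
            linarith
        have h1 := hf.2 (Set.left_mem_Icc.mpr zero_le_one) hxj
          (show (0 : ℝ) ≤ 1 - (i : ℝ) / (j : ℝ) by
            rw [sub_nonneg, div_le_one hjr]; exact hijr)
          (show (0 : ℝ) ≤ (i : ℝ) / (j : ℝ) by positivity) (by ring)
        simp only [smul_eq_mul, mul_zero, zero_add] at h1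
        have h2 : (i : ℝ) / j * ((j : ℝ) / ((n : ℝ) - 1)) = i / ((n : ℝ) - 1) := by
          field_simp
        rw [h2] at h1
        simp only [hF0]
        simp only [hF]
        have h3 : (f ((i : ℝ) / ((n : ℝ) - 1)) - f 0) ≤
            (i / j) * (f ((j : ℝ) / ((n : ℝ) - 1)) - f 0) := by linarith
        calc (f ((i : ℝ) / ((n : ℝ) - 1)) - f 0) * j
            ≤ ((i / j) * (f ((j : ℝ) / ((n : ℝ) - 1)) - f 0)) * j :=
              mul_le_mul_of_nonneg_right h3 hjr.le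
          _ = _ := by field_simp)
    refine ⟨m, hm1, hmn, ?_⟩
    rw [he0, hF0] at hm
    refine hm.trans (le_of_eq ?_)
    have h1 : ∑ i : Fin n, (if (i : ℕ) ≤ m then w m i else 0) * e i =
        ∑ i ∈ range n, (if i ≤ m then w m i else 0) * ext n e i := by
      rw [sum_ext]
      simp_rw [ext_val]
    rw [h1]
    have hsub : range (m + 1) ⊆ range n := Finset.range_subset_range.mpr (by omega)
    rw [← Finset.sum_subset hsub]
    · refine Finset.sum_congr rfl fun i hi => ?_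
      rw [if_pos (by simpa [Nat.lt_succ_iff] using Finset.mem_range.mp hi)]
    · intro i _ hi
      rw [if_neg (by simpa [Nat.lt_succ_iff] using hi), zero_mul]

section Prob

variable {Ω : Type} [MeasurableSpace Ω] {P : Measure Ω} [IsProbabilityMeasure P]

theorem subG {X : Ω → ℝ} {v : ℝ≥0} (h : P.map X = gaussianReal 0 v) : HasSubgaussianMGF X v P where
  integrable_exp_mul t := by
    have hX : AEMeasurable X P := aemeasurable_of_map_neZero (by rw [h]; infer_instance)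
    have h1 : Integrable (fun x => Real.exp (t * x)) (P.map X) := by
      rw [h]; exact integrable_exp_mul_gaussianReal t
    rwa [integrable_map_measure (by fun_prop) hX] at h1
  mgf_le t := by
    rw [mgf_gaussianReal h]
    simp

theorem tail {n : ℕ} {ε : Fin n → Ω → ℝ} {v : ℝ≥0} (hind : iIndepFun ε P)
    (hlaw : ∀ i, P.map (ε i) = gaussianReal 0 v) (c : Fin n → ℝ) {x : ℝ} (hx : 0 ≤ x) :
    P.real {ω | x ≤ ∑ i, c i * ε i ω} ≤ Real.exp (-x ^ 2 / (2 * (∑ i, c i ^ 2 * (v : ℝ)))) := by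
  have h1 : iIndepFun (fun i ω => c i * ε i ω) P :=
    hind.comp (fun i y => c i * y) (fun i => measurable_const_mul (c i))
  have h2 := HasSubgaussianMGF.measure_sum_ge_le_of_iIndepFun h1
    (c := fun i => ⟨c i ^ 2, sq_nonneg (c i)⟩ * v) (s := Finset.univ)
    (fun i _ => (subG (hlaw i)).const_mul (c i)) hx
  refine h2.trans (le_of_eq ?_)
  congr 3
  push_cast
  rfl

theorem tail_bound {n : ℕ} (hn : 2 ≤ n) {f : ℝ → ℝ} (hf : ConvexOn ℝ (Set.Icc 0 1) f) {σ : ℝ}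
    (hσ : 0 < σ) {ε : Fin n → Ω → ℝ} (hind : iIndepFun ε P)
    (hlaw : ∀ i, P.map (ε i) = gaussianReal 0 (Real.toNNReal (σ ^ 2))) {M : ℝ} (hM : 0 ≤ M) :
    P.real {ω | M < |lse n (fun i => f (design n i) + ε i ω) ⟨0, by omega⟩ - f 0|} ≤
      8 * Real.exp (-(3 * M ^ 2 / (8 * σ ^ 2))) := by
  set q := Real.exp (-(M ^ 2 / (8 * σ ^ 2))) with hq
  have hq0 : 0 < q := Real.exp_pos _
  have hq3 : Real.exp (-(3 * M ^ 2 / (8 * σ ^ 2))) = q ^ 3 := by
    rw [hq, ← Real.exp_nat_mul]; congr 1; push_cast; ring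
  rw [hq3]
  by_cases hq2 : 1 / 2 < q
  · have h1 : (1 / 2 : ℝ) ^ 3 ≤ q ^ 3 := pow_le_pow_left₀ (by norm_num) hq2.le 3
    have h2 : P.real {ω | M < |lse n (fun i => f (design n i) + ε i ω) ⟨0, by omega⟩ - f 0|} ≤ 1 :=
      measureReal_le_one
    norm_num at h1
    linarith
  push Not at hq2
  -- the events
  set A : ℕ → Set Ω := fun m => {ω | M * ((m + 1) * (m + 2) / 6) ≤
    ∑ i : Fin n, (if (i : ℕ) ≤ m then w m i else 0) * ε i ω} with hA
  set B : Set Ω := {ω | M ≤ ∑ i : Fin n, (if (i : ℕ) = 0 then -1 else 0) * ε i ω} with hB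
  have hsub : {ω | M < |lse n (fun i => f (design n i) + ε i ω) ⟨0, by omega⟩ - f 0|} ⊆
      B ∪ ⋃ m ∈ Finset.Ico 1 n, A m := by
    intro ω hω
    obtain ⟨h1, m, hm1, hmn, h2⟩ := det hn hf (fun i => ε i ω)
    simp only [Set.mem_ofPred_eq] at hω
    rcases lt_abs.mp hω with h3 | h3
    · right
      simp only [Set.mem_iUnion]
      refine ⟨m, Finset.mem_Ico.mpr ⟨hm1, hmn⟩, ?_⟩
      simp only [hA, Set.mem_ofPred_eq]
      refine le_trans ?_ h2
      exact mul_le_mul_of_nonneg_right h3.le (by positivity)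
    · left
      simp only [hB, Set.mem_ofPred_eq]
      have h4 : ∑ i : Fin n, (if (i : ℕ) = 0 then (-1 : ℝ) else 0) * ε i ω =
          -ε ⟨0, by omega⟩ ω := by
        rw [Finset.sum_eq_single ⟨0, by omega⟩]
        · simp
        · intro i _ hi
          rw [if_neg (fun h => hi (Fin.ext h)), zero_mul]
        · simp
      rw [h4]
      linarith
  have hBb : P.real B ≤ q ^ 3 := by
    refine (tail hind hlaw _ hM).trans ?_
    have h1 : ∑ i : Fin n, (if (i : ℕ) = 0 then (-1 : ℝ) else 0) ^ 2 *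
        (Real.toNNReal (σ ^ 2) : ℝ) = σ ^ 2 := by
      rw [Real.coe_toNNReal _ (sq_nonneg σ), Finset.sum_eq_single ⟨0, by omega⟩]
      · simp
      · intro i _ hi
        rw [if_neg (fun h => hi (Fin.ext h))]
        simp
      · simp
    rw [h1, ← hq3]
    refine Real.exp_le_exp.mpr ?_
    have h2 : 0 ≤ M ^ 2 / σ ^ 2 := by positivity
    have e1 : -M ^ 2 / (2 * σ ^ 2) = -((1 / 2) * (M ^ 2 / σ ^ 2)) := by field_simp
    have e2 : -(3 * M ^ 2 / (8 * σ ^ 2)) = -((3 / 8) * (M ^ 2 / σ ^ 2)) := by field_simp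
    rw [e1, e2]
    linarith
  have hAb : ∀ m ∈ Finset.Ico 1 n, P.real (A m) ≤ q ^ (m + 2) := by
    intro m hm
    obtain ⟨hm1, hmn⟩ := Finset.mem_Ico.mp hm
    have hmr : (0 : ℝ) ≤ m := Nat.cast_nonneg m
    refine (tail hind hlaw (fun i : Fin n => if (i : ℕ) ≤ m then w m i else 0)
      (by positivity : 0 ≤ M * (((m : ℝ) + 1) * (m + 2) / 6))).trans ?_
    have h1 : ∑ i : Fin n, (if (i : ℕ) ≤ m then w m i else 0) ^ 2 *
        (Real.toNNReal (σ ^ 2) : ℝ) = σ ^ 2 * ((m + 1) * (m + 2) * (2 * m + 1) / 18) := by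
      rw [Real.coe_toNNReal _ (sq_nonneg σ), ← sum_w_sq, ← Finset.sum_mul, mul_comm]
      congr 1
      rw [← sum_ext (fun i => (if i ≤ m then w m i else 0) ^ 2)]
      have hsub : range (m + 1) ⊆ range n := Finset.range_subset_range.mpr (by omega)
      rw [← Finset.sum_subset hsub]
      · refine Finset.sum_congr rfl fun i hi => ?_
        rw [if_pos (by simpa [Nat.lt_succ_iff] using Finset.mem_range.mp hi)]
      · intro i _ hi
        rw [if_neg (by simpa [Nat.lt_succ_iff] using hi)]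
        norm_num
    rw [h1, hq, ← Real.exp_nat_mul]
    refine Real.exp_le_exp.mpr ?_
    have e1 : -(M * (((m : ℝ) + 1) * (m + 2) / 6)) ^ 2 /
        (2 * (σ ^ 2 * ((m + 1) * (m + 2) * (2 * m + 1) / 18))) =
        -((M ^ 2 / σ ^ 2) * ((m + 2) * ((m + 1) / (4 * (2 * m + 1))))) := by
      field_simp
      ring
    have e2 : ((m + 2 : ℕ) : ℝ) * -(M ^ 2 / (8 * σ ^ 2)) =
        -((M ^ 2 / σ ^ 2) * ((m + 2) * (1 / 8))) := by
      push_cast
      field_simp
    rw [e1, e2, neg_le_neg_iff]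
    refine mul_le_mul_of_nonneg_left (mul_le_mul_of_nonneg_left ?_ (by positivity))
      (by positivity)
    rw [div_le_div_iff₀ (by norm_num) (by positivity)]
    linarith
  have hsum : ∑ m ∈ Finset.Ico 1 n, q ^ (m + 2) ≤ 2 * q ^ 3 := by
    have h1 : ∀ N : ℕ, ∑ m ∈ Finset.range N, q ^ m ≤ 2 := by
      intro N
      have h2 : (∑ m ∈ Finset.range N, q ^ m) * (1 - q) = 1 - q ^ N := by
        rw [mul_comm]; exact mul_neg_geom_sum q N
      have h3 : 0 ≤ q ^ N := pow_nonneg hq0.le N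
      have h4 : 0 ≤ ∑ m ∈ Finset.range N, q ^ m := Finset.sum_nonneg fun i _ => pow_nonneg hq0.le i
      nlinarith
    rw [Finset.sum_Ico_eq_sum_range]
    have h5 : ∀ k ∈ Finset.range (n - 1), q ^ (1 + k + 2) = q ^ 3 * q ^ k := fun k _ => by ring
    rw [Finset.sum_congr rfl h5, ← Finset.mul_sum]
    have := mul_le_mul_of_nonneg_left (h1 (n - 1)) (pow_nonneg hq0.le 3)
    linarith
  calc P.real {ω | M < |lse n (fun i => f (design n i) + ε i ω) ⟨0, by omega⟩ - f 0|}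
      ≤ P.real (B ∪ ⋃ m ∈ Finset.Ico 1 n, A m) := measureReal_mono hsub
    _ ≤ P.real B + P.real (⋃ m ∈ Finset.Ico 1 n, A m) := measureReal_union_le _ _
    _ ≤ q ^ 3 + ∑ m ∈ Finset.Ico 1 n, P.real (A m) :=
        add_le_add hBb (measureReal_biUnion_finset_le _ _)
    _ ≤ q ^ 3 + 2 * q ^ 3 := add_le_add le_rfl ((Finset.sum_le_sum hAb).trans hsum)
    _ ≤ 8 * q ^ 3 := by have := pow_nonneg hq0.le 3; linarith

end Prob

/-- The convex least squares estimator exists, is unique, and its boundary value is tight,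
uniformly over all convex regression functions after centring at `f 0`. -/
theorem result :
    (∀ n : ℕ, 3 ≤ n → ∀ Y : Fin n → ℝ, ∃! θ, IsLSE n Y θ) ∧
    (∀ n : ℕ, 3 ≤ n → ∀ Y : Fin n → ℝ, IsLSE n Y (lse n Y)) ∧
    (∀ (n : ℕ) (hn : 3 ≤ n) (Y : Fin n → ℝ),
      Tendsto (interp n (lse n Y)) (𝓝[>] 0) (𝓝 (lse n Y ⟨0, by omega⟩))) ∧
    (∀ (σ : ℝ), 0 < σ → ∀ (n : ℕ) (hn : 3 ≤ n) (f : ℝ → ℝ), ConvexOn ℝ (Set.Icc 0 1) f →
      ∀ (Ω : Type) [MeasurableSpace Ω] (P : Measure Ω) [IsProbabilityMeasure P]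
        (ε : Fin n → Ω → ℝ), iIndepFun ε P →
        (∀ i, P.map (ε i) = gaussianReal 0 (Real.toNNReal (σ ^ 2))) → ∀ M : ℝ, 0 ≤ M →
        P.real {ω | M < |lse n (fun i => f (design n i) + ε i ω) ⟨0, by omega⟩ - f 0|} ≤
          8 * Real.exp (-(3 * M ^ 2 / (8 * σ ^ 2)))) ∧
    (∀ (f : ℝ → ℝ), ContinuousOn f (Set.Icc 0 1) → ConvexOn ℝ (Set.Icc 0 1) f →
      ∀ σ : ℝ, 0 < σ → ∀ η : ℝ, 0 < η → ∃ M : ℝ, ∀ (n : ℕ) (hn : 3 ≤ n),
      ∀ (Ω : Type) [MeasurableSpace Ω] (P : Measure Ω) [IsProbabilityMeasure P]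
        (ε : Fin n → Ω → ℝ), iIndepFun ε P →
        (∀ i, P.map (ε i) = gaussianReal 0 (Real.toNNReal (σ ^ 2))) →
        P.real {ω | M < |lse n (fun i => f (design n i) + ε i ω) ⟨0, by omega⟩|} < η) := by
  refine ⟨fun n hn Y => ?_, fun n hn Y => lse_spec (by omega) Y,
    fun n hn Y => interp_tendsto (by omega) _, ?_, ?_⟩
  · obtain ⟨θ, hθ⟩ := exists_lse (by omega) Y
    exact ⟨θ, hθ, fun θ' hθ' => lse_unique (by omega) Y hθ' hθ⟩
  · intro σ hσ n hn f hf Ω _ P _ ε hind hlaw M hM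
    exact tail_bound (by omega) hf hσ hind hlaw hM
  · intro f _ hf σ hσ η hη
    obtain ⟨M, hM0, hM⟩ : ∃ M : ℝ, 0 ≤ M ∧ 8 * Real.exp (-(3 * M ^ 2 / (8 * σ ^ 2))) < η := by
      have h1 : Tendsto (fun M : ℝ => 8 * Real.exp (-(3 * M ^ 2 / (8 * σ ^ 2)))) atTop
          (𝓝 (8 * 0)) := by
        refine Tendsto.const_mul 8 (Real.tendsto_exp_neg_atTop_nhds_zero.comp ?_)
        refine Tendsto.atTop_div_const (by positivity) ?_
        exact (tendsto_pow_atTop two_ne_zero).const_mul_atTop (by norm_num)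
      rw [mul_zero] at h1
      obtain ⟨M, h2, h3⟩ := ((h1.eventually_lt_const hη).and (eventually_ge_atTop 0)).exists
      exact ⟨M, h3, h2⟩
    refine ⟨|f 0| + M, fun n hn Ω _ P _ ε hind hlaw => ?_⟩
    have hn2 : 2 ≤ n := by omega
    have htb := tail_bound hn2 hf hσ hind hlaw hM0
    refine lt_of_le_of_lt (measureReal_mono ?_ (measure_ne_top P _)) (lt_of_le_of_lt htb hM)
    intro ω hω
    simp only [Set.mem_ofPred_eq] at hω ⊢
    have := abs_sub_abs_le_abs_sub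
      (lse n (fun i => f (design n i) + ε i ω) ⟨0, by omega⟩) (f 0)
    linarith

end

end Pool.Agent.Results.MP_856808_pr.BoundaryTight
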